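import Mathlib

/-!
Definitions for one-dimensional grammar vector addition systems (1-GVAS).
A symbol is `Sum.inl X` (a nonterminal `X`) or `Sum.inr z` (an integer `z`).
-/

namespace Pool.Agent.Lib.MP_020e3f_lc

/-- A 1-GVAS whose nonterminals are taken from the type `ν`: a finite set of nonterminals, an
initial nonterminal, and a finite set of rules `X → α`, written as pairs `(X, α)`. -/
structure GVAS (ν : Type) where
  nts : Finset ν
  start : ν
  rules : Finset (ν × List (ν ⊕ ℤ))
  start_mem : start ∈ nts
  lhs_mem : ∀ r ∈ rules, r.1 ∈ nts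
  rhs_mem : ∀ r ∈ rules, ∀ Y : ν, Sum.inl Y ∈ r.2 → Y ∈ nts

/-- Finite ordered trees with vertices labelled by elements of `σ`: a root label and an ordered
family of `n` subtrees (`n = 0` for a leaf). -/
inductive OTree (σ : Type) : Type
  | node (label : σ) (n : ℕ) (children : Fin n → OTree σ) : OTree σ

/-- The label of the root. -/
def OTree.root {σ : Type} : OTree σ → σ
  | .node l _ _ => l

/-- The number of vertices. -/
def OTree.numVertices {σ : Type} : OTree σ → ℕ
  | .node _ n c => 1 + ∑ i : Fin n, (c i).numVertices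

/-- The word of leaf labels, read from left to right. -/
def OTree.yield {σ : Type} : OTree σ → List σ
  | .node l n c => if n = 0 then [l] else (List.ofFn fun i : Fin n => (c i).yield).flatten

/-- Every internal vertex is labelled by a nonterminal `Y`, and the labels of its children, read
from left to right, form the right-hand side of a rule `Y → α` of `G`. -/
def GVAS.Respects {ν : Type} (G : GVAS ν) : OTree (ν ⊕ ℤ) → Prop
  | .node l n c =>
      (n ≠ 0 → ∃ Y : ν, l = Sum.inl Y ∧ (Y, List.ofFn fun i : Fin n => (c i).root) ∈ G.rules) ∧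
        ∀ i : Fin n, G.Respects (c i)

/-- `t` is an `X`-derivation of `G`. -/
def GVAS.IsDerivation {ν : Type} (G : GVAS ν) (X : ν) (t : OTree (ν ⊕ ℤ)) : Prop :=
  t.root = Sum.inl X ∧ G.Respects t

/-- `X` is branching: some `X`-derivation has a yield of the form `α X β X γ`. -/
def GVAS.Branching {ν : Type} (G : GVAS ν) (X : ν) : Prop :=
  ∃ (t : OTree (ν ⊕ ℤ)) (α β γ : List (ν ⊕ ℤ)),
    G.IsDerivation X t ∧ t.yield = α ++ [Sum.inl X] ++ β ++ [Sum.inl X] ++ γ

/-- `G` is thin: none of its nonterminals is branching. -/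
def GVAS.Thin {ν : Type} (G : GVAS ν) : Prop :=
  ∀ X ∈ G.nts, ¬ G.Branching X

/-- `t` is a derivation of `G` from `a` to `b`: a complete derivation from the initial
nonterminal, with yield `z₁ ⋯ z_k`, such that `a + z₁ + ⋯ + z_i ≥ 0` for all `i ≤ k` and
`a + z₁ + ⋯ + z_k = b`. -/
def GVAS.DerivationFromTo {ν : Type} (G : GVAS ν) (a b : ℕ) (t : OTree (ν ⊕ ℤ)) : Prop :=
  G.IsDerivation G.start t ∧
    ∃ zs : List ℤ, t.yield = zs.map Sum.inr ∧
      (∀ i ≤ zs.length, 0 ≤ (a : ℤ) + (zs.take i).sum) ∧ (a : ℤ) + zs.sum = b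

/-- The number of bits of an integer symbol (binary encoding of its absolute value); `0` for a
nonterminal. -/
def symbolBits {ν : Type} : ν ⊕ ℤ → ℕ
  | .inl _ => 0
  | .inr z => Nat.size z.natAbs

/-- `size(G)`: number of nonterminals, plus number of rules, plus total length of all right-hand
sides, plus total bit size of all integers occurring in right-hand sides. -/
def GVAS.grammarSize {ν : Type} (G : GVAS ν) : ℕ :=
  G.nts.card + G.rules.card + ∑ r ∈ G.rules, r.2.length +
    ∑ r ∈ G.rules, (r.2.map symbolBits).sum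

end Pool.Agent.Lib.MP_020e3f_lc
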