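import Pool.Agent.Lib.MP_020e3f_lc.General

/-!
The family `G k` of thin 1-GVAS of size `O(k)` whose derivations from `1` to `2` have size at
least `3 ^ (k * 2 ^ k) - 1`.
-/

namespace Pool.Agent.Lib.MP_020e3f_lc

/-- The nonterminals of the family. -/
inductive NT : Type
  | S : NT
  | P (j : ℕ) : NT
  | N (j : ℕ) : NT
  | D (i : ℕ) : NT
  | R (i : ℕ) : NT
  | Y (i : ℕ) : NT
  deriving DecidableEq

open Sum

abbrev Rule := NT × List (NT ⊕ ℤ)

def rS₁ : Rule := (NT.S, [inr 1, inl NT.S, inr (-2)])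
def rS₂ : Rule := (NT.S, [inl (NT.D 0), inl (NT.R 0)])
def rP₀ : Rule := (NT.P 0, [inr 1])
def rN₀ : Rule := (NT.N 0, [inr (-1)])
def rP (j : ℕ) : Rule := (NT.P (j + 1), [inl (NT.P j), inl (NT.P j), inl (NT.P j)])
def rN (j : ℕ) : Rule := (NT.N (j + 1), [inl (NT.N j), inl (NT.N j), inl (NT.N j)])
def rD (i : ℕ) : Rule := (NT.D i, [inl (NT.D (i + 1)), inl (NT.D (i + 1))])
def rDk₁ (k : ℕ) : Rule := (NT.D k, [inl (NT.N k), inl (NT.D k), inl (NT.P k), inr 1])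
def rDk₂ (k : ℕ) : Rule := (NT.D k, [inr 0])
def rR (i : ℕ) : Rule := (NT.R i, [inl (NT.R (i + 1)), inl (NT.R (i + 1)), inl (NT.Y i)])
def rRk (k : ℕ) : Rule := (NT.R k, [inr 0])
def rY₁ (i : ℕ) : Rule := (NT.Y i, [inl (NT.N (2 * i + 2)), inl (NT.N (i + 1)), inl (NT.N (i + 1)),
  inr (-1), inl (NT.Y i), inl (NT.P (2 * i + 2)), inl (NT.P (i + 2))])
def rY₂ (i : ℕ) : Rule := (NT.Y i, [inr 0])

def famRules (k : ℕ) : Finset Rule :=
  {rS₁, rS₂, rP₀, rN₀, rDk₁ k, rDk₂ k, rRk k} ∪ (Finset.range (2 * k)).image rP ∪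
    (Finset.range (2 * k)).image rN ∪ (Finset.range k).image rD ∪ (Finset.range k).image rR ∪
    (Finset.range k).image rY₁ ∪ (Finset.range k).image rY₂

def famNts (k : ℕ) : Finset NT :=
  {NT.S} ∪ (Finset.range (2 * k + 1)).image NT.P ∪ (Finset.range (2 * k + 1)).image NT.N ∪
    (Finset.range (k + 1)).image NT.D ∪ (Finset.range (k + 1)).image NT.R ∪
    (Finset.range k).image NT.Y

theorem mem_famRules {k : ℕ} {r : Rule} : r ∈ famRules k ↔
    r = rS₁ ∨ r = rS₂ ∨ r = rP₀ ∨ r = rN₀ ∨ r = rDk₁ k ∨ r = rDk₂ k ∨ r = rRk k ∨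
      (∃ j < 2 * k, r = rP j) ∨ (∃ j < 2 * k, r = rN j) ∨ (∃ i < k, r = rD i) ∨
      (∃ i < k, r = rR i) ∨ (∃ i < k, r = rY₁ i) ∨ (∃ i < k, r = rY₂ i) := by
  simp only [famRules, Finset.mem_union, Finset.mem_insert, Finset.mem_singleton,
    Finset.mem_image, Finset.mem_range, or_assoc, eq_comm (a := r)]

theorem mem_famNts {k : ℕ} {X : NT} : X ∈ famNts k ↔
    X = NT.S ∨ (∃ j ≤ 2 * k, X = NT.P j) ∨ (∃ j ≤ 2 * k, X = NT.N j) ∨ (∃ i ≤ k, X = NT.D i) ∨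
      (∃ i ≤ k, X = NT.R i) ∨ (∃ i < k, X = NT.Y i) := by
  simp only [famNts, Finset.mem_union, Finset.mem_singleton,
    Finset.mem_image, Finset.mem_range, or_assoc, eq_comm (a := X), Nat.lt_succ_iff]

/-- The `k`-th grammar of the family. -/
def fam (k : ℕ) : GVAS NT where
  nts := famNts k
  start := NT.S
  rules := famRules k
  start_mem := by simp [mem_famNts]
  lhs_mem := by
    intro r hr
    rcases mem_famRules.1 hr with rfl | rfl | rfl | rfl | rfl | rfl | rfl | ⟨j, hj, rfl⟩ |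
      ⟨j, hj, rfl⟩ | ⟨j, hj, rfl⟩ | ⟨j, hj, rfl⟩ | ⟨j, hj, rfl⟩ | ⟨j, hj, rfl⟩ <;>
    simp [mem_famNts, rS₁, rS₂, rP₀, rN₀, rDk₁, rDk₂, rRk, rP, rN, rD, rR, rY₁, rY₂] <;> omega
  rhs_mem := by
    intro r hr Z hZ
    rcases mem_famRules.1 hr with rfl | rfl | rfl | rfl | rfl | rfl | rfl | ⟨j, hj, rfl⟩ |
      ⟨j, hj, rfl⟩ | ⟨j, hj, rfl⟩ | ⟨j, hj, rfl⟩ | ⟨j, hj, rfl⟩ | ⟨j, hj, rfl⟩ <;>
    simp [rS₁, rS₂, rP₀, rN₀, rDk₁, rDk₂, rRk, rP, rN, rD, rR, rY₁, rY₂] at hZ <;>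
    (try rcases hZ with rfl | rfl | rfl | rfl | rfl) <;>
    simp [mem_famNts] <;> omega

/-! ### Thinness -/

def rk (k : ℕ) : NT → ℕ
  | NT.S => 10 * k + 10
  | NT.P j => j
  | NT.N j => j
  | NT.D i => 3 * k + 3 - i
  | NT.R i => 4 * k + 4 - i
  | NT.Y _ => 2 * k + 1

theorem fam_thin (k : ℕ) : (fam k).Thin := by
  refine thin_of_rank (rk k) ?_
  intro X α hr
  have hr' : ((X, α) : Rule) ∈ famRules k := hr
  rcases mem_famRules.1 hr' with h | h | h | h | h | h | h | ⟨j, hj, h⟩ |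
      ⟨j, hj, h⟩ | ⟨j, hj, h⟩ | ⟨j, hj, h⟩ | ⟨j, hj, h⟩ | ⟨j, hj, h⟩ <;>
    simp only [rS₁, rS₂, rP₀, rN₀, rDk₁, rDk₂, rRk, rP, rN, rD, rR, rY₁, rY₂,
      Prod.mk.injEq] at h <;>
    obtain ⟨rfl, rfl⟩ := h <;>
    simp [occ, rk] <;> omega

/-! ### Size -/

theorem sum_image_le {α : Type} [DecidableEq α] (n c : ℕ) (f : ℕ → α) (w : α → ℕ)
    (h : ∀ i, w (f i) ≤ c) : ∑ x ∈ (Finset.range n).image f, w x ≤ c * n := by
  calc ∑ x ∈ (Finset.range n).image f, w x ≤ ((Finset.range n).image f).card • c := by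
        refine Finset.sum_le_card_nsmul _ _ _ ?_
        intro x hx
        obtain ⟨i, _, rfl⟩ := Finset.mem_image.1 hx
        exact h i
    _ ≤ n * c := by
        rw [smul_eq_mul]
        exact Nat.mul_le_mul_right _ (Finset.card_image_le.trans (by simp))
    _ = c * n := by ring

theorem sum_union_le' {α : Type} [DecidableEq α] (s t : Finset α) (w : α → ℕ) {a b : ℕ}
    (ha : ∑ x ∈ s, w x ≤ a) (hb : ∑ x ∈ t, w x ≤ b) : ∑ x ∈ s ∪ t, w x ≤ a + b := by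
  have := Finset.sum_union_inter (s₁ := s) (s₂ := t) (f := w)
  omega

theorem sum_insert_le' {α : Type} [DecidableEq α] (x : α) (t : Finset α) (w : α → ℕ) {a b : ℕ}
    (ha : w x ≤ a) (hb : ∑ x ∈ t, w x ≤ b) : ∑ x ∈ insert x t, w x ≤ a + b := by
  rw [Finset.insert_eq]
  exact sum_union_le' _ _ _ (by simpa using ha) hb

/-- The contribution of a rule to the size. -/
def ruleWt (r : Rule) : ℕ := 1 + r.2.length + (r.2.map symbolBits).sum

theorem fam_size_le (k : ℕ) : (fam k).grammarSize ≤ 41 * k + 31 := by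
  have h1 : (famNts k).card ≤ 1 + 1 * (2 * k + 1) + 1 * (2 * k + 1) + 1 * (k + 1) + 1 * (k + 1) +
      1 * k := by
    rw [Finset.card_eq_sum_ones]
    unfold famNts
    refine sum_union_le' _ _ _ (sum_union_le' _ _ _ (sum_union_le' _ _ _ (sum_union_le' _ _ _
      (sum_union_le' _ _ _ (by simp) ?_) ?_) ?_) ?_) ?_ <;>
    exact sum_image_le _ _ _ _ (fun _ => le_rfl)
  have s1 : Nat.size 1 = 1 := by decide
  have s2 : Nat.size 2 = 2 := by decide
  have h2 : ∑ r ∈ famRules k, ruleWt r ≤ (7 + (3 + (3 + (3 + (6 + (2 + 2)))))) + 4 * (2 * k) +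
      4 * (2 * k) + 3 * k + 4 * k + 9 * k + 2 * k := by
    unfold famRules
    refine sum_union_le' _ _ _ (sum_union_le' _ _ _ (sum_union_le' _ _ _ (sum_union_le' _ _ _
      (sum_union_le' _ _ _ (sum_union_le' _ _ _ ?_ ?_) ?_) ?_) ?_) ?_) ?_
    · refine sum_insert_le' _ _ _ ?_ (sum_insert_le' _ _ _ ?_ (sum_insert_le' _ _ _ ?_
        (sum_insert_le' _ _ _ ?_ (sum_insert_le' _ _ _ ?_ (sum_insert_le' _ _ _ ?_ ?_))))) <;>
      simp [ruleWt, symbolBits, rS₁, rS₂, rP₀, rN₀, rDk₁, rDk₂, rRk, s1, s2]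
    all_goals
      refine sum_image_le _ _ _ _ (fun _ => ?_)
      simp [ruleWt, symbolBits, rP, rN, rD, rR, rY₁, rY₂, s1]
  have h3 : ∑ r ∈ famRules k, ruleWt r = (famRules k).card + ∑ r ∈ famRules k, r.2.length +
      ∑ r ∈ famRules k, (r.2.map symbolBits).sum := by
    simp only [ruleWt, Finset.sum_add_distrib, Finset.card_eq_sum_ones]
  have h4 : (fam k).grammarSize = (famNts k).card + (famRules k).card + ∑ r ∈ famRules k, r.2.length +
      ∑ r ∈ famRules k, (r.2.map symbolBits).sum := rfl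
  omega

theorem le_fam_size (k : ℕ) : k ≤ (fam k).grammarSize := by
  have h1 : k ≤ (famNts k).card := by
    calc k = ((Finset.range k).image NT.Y).card := by
          rw [Finset.card_image_of_injective _ (fun a b h => by cases h; rfl)]; simp
      _ ≤ (famNts k).card := Finset.card_le_card (by unfold famNts; exact Finset.subset_union_right)
  have h4 : (fam k).grammarSize = (famNts k).card + (famRules k).card + ∑ r ∈ famRules k, r.2.length +
      ∑ r ∈ famRules k, (r.2.map symbolBits).sum := rfl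
  omega

end Pool.Agent.Lib.MP_020e3f_lc
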