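import Pool.Agent.Lib.MP_020e3f_lc.Defs

/-!
General facts: runs of words of symbols, their link with derivation trees, a thinness criterion.
-/

namespace Pool.Agent.Lib.MP_020e3f_lc

variable {ν : Type}

/-- `Run G w a b s`: the word `w` expands to complete derivations of total size `s` leading from
`a` to `b` through nonnegative values. -/
inductive Run (G : GVAS ν) : List (ν ⊕ ℤ) → ℤ → ℤ → ℕ → Prop
  | nil {a : ℤ} : 0 ≤ a → Run G [] a a 0
  | int {z a b : ℤ} {w : List (ν ⊕ ℤ)} {s : ℕ} :
      0 ≤ a → Run G w (a + z) b s → Run G (Sum.inr z :: w) a b (s + 1)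
  | nt {Y : ν} {α w : List (ν ⊕ ℤ)} {a m b : ℤ} {s₁ s₂ : ℕ} :
      (Y, α) ∈ G.rules → α ≠ [] → Run G α a m s₁ → Run G w m b s₂ →
      Run G (Sum.inl Y :: w) a b (1 + s₁ + s₂)

theorem Run.nonneg {G : GVAS ν} {w : List (ν ⊕ ℤ)} {a b : ℤ} {s : ℕ} (h : Run G w a b s) :
    0 ≤ a ∧ 0 ≤ b := by
  induction h with
  | nil h => exact ⟨h, h⟩
  | int h _ ih => exact ⟨h, ih.2⟩
  | nt _ _ _ _ ih₁ ih₂ => exact ⟨ih₁.1, ih₂.2⟩

theorem Run.append {G : GVAS ν} {u w : List (ν ⊕ ℤ)} {a m b : ℤ} {s₁ s₂ : ℕ}
    (h₁ : Run G u a m s₁) (h₂ : Run G w m b s₂) : Run G (u ++ w) a b (s₁ + s₂) := by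
  induction h₁ with
  | nil _ => simpa using h₂
  | @int z a b' w' s h _ ih =>
    have := Run.int h (ih h₂)
    have e : s + 1 + s₂ = s + s₂ + 1 := by ring
    rw [e]; exact this
  | @nt Y α w' a m' b' t₁ t₂ hr hne hα _ _ ih₂ =>
    have := Run.nt hr hne hα (ih₂ h₂)
    have e : 1 + t₁ + t₂ + s₂ = 1 + t₁ + (t₂ + s₂) := by ring
    rw [e]; exact this

/-- `Ok a zs b`: adding the integers `zs` in turn leads from `a` to `b` through nonnegative
values. -/
def Ok : ℤ → List ℤ → ℤ → Prop
  | a, [], b => 0 ≤ a ∧ a = b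
  | a, z :: zs, b => 0 ≤ a ∧ Ok (a + z) zs b

theorem Ok.nonneg_left {a b : ℤ} {zs : List ℤ} (h : Ok a zs b) : 0 ≤ a := by
  cases zs <;> exact h.1

theorem ok_append {xs ys : List ℤ} {a b : ℤ} :
    Ok a (xs ++ ys) b ↔ ∃ m, Ok a xs m ∧ Ok m ys b := by
  induction xs generalizing a with
  | nil =>
    constructor
    · intro h; exact ⟨a, ⟨h.nonneg_left, rfl⟩, h⟩
    · rintro ⟨m, ⟨_, rfl⟩, h⟩; exact h
  | cons x xs ih =>
    constructor
    · rintro ⟨h0, h⟩
      obtain ⟨m, h1, h2⟩ := ih.1 h
      exact ⟨m, ⟨h0, h1⟩, h2⟩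
    · rintro ⟨m, ⟨h0, h1⟩, h2⟩
      exact ⟨h0, ih.2 ⟨m, h1, h2⟩⟩

theorem ok_iff {zs : List ℤ} {a b : ℤ} :
    Ok a zs b ↔ (∀ i ≤ zs.length, 0 ≤ a + (zs.take i).sum) ∧ a + zs.sum = b := by
  induction zs generalizing a with
  | nil =>
    simp [Ok]
  | cons z zs ih =>
    simp only [Ok, ih]
    constructor
    · rintro ⟨h0, h1, h2⟩
      refine ⟨?_, by simpa [add_assoc] using h2⟩
      intro i hi
      cases i with
      | zero => simpa using h0
      | succ i =>
        have := h1 i (by simpa using hi)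
        simpa [add_assoc] using this
    · rintro ⟨h1, h2⟩
      refine ⟨by simpa using h1 0 (by simp), ?_, by simpa [add_assoc] using h2⟩
      intro i hi
      have := h1 (i + 1) (by simpa using hi)
      simpa [add_assoc] using this

theorem run_of_forest {G : GVAS ν} (ts : List (OTree (ν ⊕ ℤ)))
    (ih : ∀ t ∈ ts, ∀ (zs : List ℤ) (a b : ℤ), t.yield = zs.map Sum.inr → Ok a zs b →
      Run G [t.root] a b t.numVertices)
    (zs : List ℤ) (a b : ℤ) (hy : (ts.map OTree.yield).flatten = zs.map Sum.inr)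
    (hok : Ok a zs b) : Run G (ts.map OTree.root) a b (ts.map OTree.numVertices).sum := by
  induction ts generalizing zs a with
  | nil =>
    have : zs = [] := by simpa using hy.symm
    subst this
    obtain ⟨h0, rfl⟩ := hok
    exact Run.nil h0
  | cons t ts iht =>
    simp only [List.map_cons, List.flatten_cons] at hy
    obtain ⟨xs, ys, rfl, hx, hys⟩ := List.map_eq_append_iff.1 hy.symm
    obtain ⟨m, h1, h2⟩ := ok_append.1 hok
    have r1 := ih t (by simp) xs a m hx.symm h1
    have r2 := iht (fun t' ht' => ih t' (by simp [ht'])) ys m hys.symm h2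
    simpa using r1.append r2

theorem run_of_tree {G : GVAS ν} (t : OTree (ν ⊕ ℤ)) (ht : G.Respects t) :
    ∀ (zs : List ℤ) (a b : ℤ), t.yield = zs.map Sum.inr → Ok a zs b →
      Run G [t.root] a b t.numVertices := by
  induction t with
  | node l n c ih =>
    intro zs a b hy hok
    obtain ⟨h1, h2⟩ := ht
    by_cases hn : n = 0
    · subst hn
      simp only [OTree.yield, if_true] at hy
      match zs, hy, hok with
      | [z], hy, hok =>
        simp only [List.map_cons, List.map_nil, List.cons.injEq, and_true] at hy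
        subst hy
        obtain ⟨h0, h3, rfl⟩ := hok
        simpa [OTree.root, OTree.numVertices] using Run.int (G := G) h0 (Run.nil h3)
    · obtain ⟨Y, rfl, hr⟩ := h1 hn
      simp only [OTree.yield, if_neg hn] at hy
      have key := run_of_forest (G := G) (List.ofFn c)
        (by
          intro t ht
          obtain ⟨i, rfl⟩ := List.mem_ofFn.1 ht
          exact ih i (h2 i)) zs a b (by simpa [List.map_ofFn, Function.comp_def] using hy) hok
      simp only [List.map_ofFn, Function.comp_def] at key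
      have hne : (List.ofFn fun i : Fin n => (c i).root) ≠ [] := by
        intro h
        exact hn (by simpa using congrArg List.length h)
      have := Run.nt hr hne key (Run.nil key.nonneg.2)
      simpa [OTree.root, OTree.numVertices, List.sum_ofFn] using this

theorem forest_of_run {G : GVAS ν} {w : List (ν ⊕ ℤ)} {a b : ℤ} {s : ℕ} (h : Run G w a b s) :
    ∃ ts : List (OTree (ν ⊕ ℤ)), ts.map OTree.root = w ∧ (∀ t ∈ ts, G.Respects t) ∧
      ∃ zs : List ℤ, (ts.map OTree.yield).flatten = zs.map Sum.inr ∧ Ok a zs b := by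
  induction h with
  | nil h => exact ⟨[], rfl, by simp, [], by simp, ⟨h, rfl⟩⟩
  | @int z a b w s h _ ih =>
    obtain ⟨ts, h1, h2, zs, h3, h4⟩ := ih
    refine ⟨OTree.node (Sum.inr z) 0 Fin.elim0 :: ts, by simp [OTree.root, h1], ?_,
      z :: zs, by simp [OTree.yield, h3], ⟨h, h4⟩⟩
    intro t ht
    rcases List.mem_cons.1 ht with rfl | ht
    · exact ⟨fun h => absurd rfl h, fun i => i.elim0⟩
    · exact h2 t ht
  | @nt Y α w a m b s₁ s₂ hr hne _ _ ih₁ ih₂ =>
    obtain ⟨us, u1, u2, xs, u3, u4⟩ := ih₁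
    obtain ⟨ts, h1, h2, zs, h3, h4⟩ := ih₂
    have hl : us.length ≠ 0 := by
      intro h
      have : us = [] := List.length_eq_zero_iff.1 h
      subst this
      exact hne (by simpa using u1.symm)
    have e1 : (List.ofFn fun i : Fin us.length => (us.get i).root) = α := by
      rw [← u1]
      conv_rhs => rw [← List.ofFn_get us]
      rw [List.map_ofFn]; rfl
    have e2 : (List.ofFn fun i : Fin us.length => (us.get i).yield) = us.map OTree.yield := by
      conv_rhs => rw [← List.ofFn_get us]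
      rw [List.map_ofFn]; rfl
    refine ⟨OTree.node (Sum.inl Y) us.length us.get :: ts, by simp [OTree.root, h1], ?_,
      xs ++ zs, ?_, ok_append.2 ⟨m, u4, h4⟩⟩
    · intro t ht
      rcases List.mem_cons.1 ht with rfl | ht
      · refine ⟨fun _ => ⟨Y, rfl, by rw [e1]; exact hr⟩, fun i => u2 _ (List.get_mem _ _)⟩
      · exact h2 t ht
    · simp only [List.map_cons, List.flatten_cons, OTree.yield, if_neg hl, e2, u3, h3,
        List.map_append]

theorem run_of_derivation {G : GVAS ν} {a b : ℕ} {t : OTree (ν ⊕ ℤ)}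
    (h : G.DerivationFromTo a b t) : Run G [Sum.inl G.start] a b t.numVertices := by
  obtain ⟨⟨h1, h2⟩, zs, h3, h4⟩ := h
  have := run_of_tree t h2 zs a b h3 (ok_iff.2 h4)
  rwa [h1] at this

theorem derivation_of_run {G : GVAS ν} {a b : ℕ} {s : ℕ}
    (h : Run G [Sum.inl G.start] a b s) : ∃ t, G.DerivationFromTo a b t := by
  obtain ⟨ts, h1, h2, zs, h3, h4⟩ := forest_of_run h
  match ts, h1, h2, h3 with
  | [t], h1, h2, h3 =>
    refine ⟨t, ⟨by simpa using h1, h2 t (by simp)⟩, zs, by simpa using h3, ok_iff.1 h4⟩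
  | _ :: _ :: _, h1, _, _ => simp at h1

/-- Composition of invariants along a word. -/
def InvW (I : ν → ℤ → ℤ → ℕ → Prop) : List (ν ⊕ ℤ) → ℤ → ℤ → ℕ → Prop
  | [], a, b, _ => 0 ≤ a ∧ a = b
  | Sum.inr z :: w, a, b, s => 0 ≤ a ∧ InvW I w (a + z) b s
  | Sum.inl Y :: w, a, b, s => 0 ≤ a ∧ ∃ m s₁, s₁ ≤ s ∧ I Y a m s₁ ∧ InvW I w m b s

theorem InvW.mono {I : ν → ℤ → ℤ → ℕ → Prop} {w : List (ν ⊕ ℤ)} {a b : ℤ} {s s' : ℕ}
    (h : InvW I w a b s) (hs : s ≤ s') : InvW I w a b s' := by
  induction w generalizing a with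
  | nil => exact h
  | cons x w ih =>
    cases x with
    | inl Y =>
      obtain ⟨h0, m, s₁, h1, h2, h3⟩ := h
      exact ⟨h0, m, s₁, h1.trans hs, h2, ih h3⟩
    | inr z => exact ⟨h.1, ih h.2⟩

theorem invW_of_run {G : GVAS ν} {I : ν → ℤ → ℤ → ℕ → Prop}
    (hI : ∀ Y α, (Y, α) ∈ G.rules → ∀ a b s, InvW I α a b s → I Y a b (s + 1))
    {w : List (ν ⊕ ℤ)} {a b : ℤ} {s : ℕ} (h : Run G w a b s) : InvW I w a b s := by
  induction h with
  | nil h => exact ⟨h, rfl⟩
  | int h _ ih => exact ⟨h, ih.mono (by omega)⟩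
  | @nt Y α w a m b s₁ s₂ hr _ hα _ ih₁ ih₂ =>
    exact ⟨hα.nonneg.1, m, s₁ + 1, by omega, hI Y α hr a m s₁ ih₁, ih₂.mono (by omega)⟩

/-- The number of occurrences of the nonterminal `X` in a word. -/
def occ [DecidableEq ν] (X : ν) (w : List (ν ⊕ ℤ)) : ℕ :=
  w.countP fun s => decide (s = Sum.inl X)

theorem thin_of_rank [DecidableEq ν] {G : GVAS ν} (rk : ν → ℕ)
    (h : ∀ X α, (X, α) ∈ G.rules →
      occ X α ≤ 1 ∧ ∀ Y, Sum.inl Y ∈ α → Y = X ∨ rk Y < rk X) : G.Thin := by
  have key : ∀ (X : ν) (t : OTree (ν ⊕ ℤ)), G.Respects t →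
      (∀ Y, t.root = Sum.inl Y → rk Y ≤ rk X) →
      occ X t.yield ≤ occ X [t.root] := by
    intro X t
    induction t with
    | node l n c ih =>
      intro ht hrk
      obtain ⟨h1, h2⟩ := ht
      by_cases hn : n = 0
      · subst hn
        simp [OTree.yield, OTree.root]
      · obtain ⟨Y, rfl, hr⟩ := h1 hn
        have hY : rk Y ≤ rk X := hrk Y rfl
        obtain ⟨hc, hlt⟩ := h _ _ hr
        have hsum : occ X (List.ofFn fun i : Fin n => (c i).yield).flatten ≤
            occ X (List.ofFn fun i : Fin n => (c i).root) := by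
          have e : (List.ofFn fun i : Fin n => (c i).root) =
              (List.ofFn fun i : Fin n => [(c i).root]).flatten := by
            have : ∀ l : List (OTree (ν ⊕ ℤ)), l.map OTree.root =
                (l.map fun t => [t.root]).flatten := by
              intro l; induction l <;> simp_all
            simpa [List.map_ofFn, Function.comp_def] using this (List.ofFn c)
          rw [e, occ, occ, List.countP_flatten, List.countP_flatten]
          simp only [List.map_ofFn, List.sum_ofFn, Function.comp_def]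
          refine Finset.sum_le_sum fun i _ => ih i (h2 i) ?_
          intro Z hZ
          have hmem : Sum.inl Z ∈ List.ofFn fun i : Fin n => (c i).root :=
            List.mem_ofFn.2 ⟨i, hZ⟩
          rcases hlt Z hmem with rfl | hh
          · exact hY
          · omega
        simp only [OTree.yield, if_neg hn, OTree.root]
        refine hsum.trans ?_
        by_cases hXY : Y = X
        · subst hXY
          simpa [occ] using hc
        · have : occ X (List.ofFn fun i : Fin n => (c i).root) = 0 := by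
            rw [occ, List.countP_eq_zero]
            intro s hmem hs
            have hs' : s = Sum.inl X := by simpa using hs
            subst hs'
            rcases hlt X hmem with rfl | hh
            · exact hXY rfl
            · omega
          rw [this]; exact Nat.zero_le _
  rintro X _ ⟨t, α, β, γ, ⟨h1, h2⟩, hy⟩
  have := key X t h2 (by
    intro Y hY
    rw [h1] at hY
    cases hY
    exact le_rfl)
  rw [hy, h1] at this
  simp [occ, List.countP_append] at this
  omega

end Pool.Agent.Lib.MP_020e3f_lc
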