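import Pool.Agent.Lib.MP_020e3f_lc.Semantics

/-!
Negative answer to Q1: minimal derivations in thin 1-GVAS can be doubly exponential.
-/

namespace Pool.Agent.Lib.MP_020e3f_lc

theorem poly_le (P : Polynomial ℝ) :
    ∃ n₀ : ℕ, ∀ n : ℕ, n₀ ≤ n → P.eval (n : ℝ) ≤ (2 : ℝ) ^ ((n : ℝ) / 42) := by
  have hl : 0 < Real.log 2 := Real.log_pos (by norm_num)
  have h1 := Polynomial.tendsto_div_exp_atTop (P.comp (Polynomial.C (42 / Real.log 2) *
    Polynomial.X))
  have h2 : Filter.Tendsto (fun n : ℕ => Real.log 2 * ((n : ℝ) / 42)) Filter.atTop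
      Filter.atTop :=
    (tendsto_natCast_atTop_atTop.atTop_div_const (by norm_num)).const_mul_atTop hl
  have h3 := (h1.comp h2).eventually (gt_mem_nhds (show (0 : ℝ) < 1 by norm_num))
  obtain ⟨n₀, hn₀⟩ := Filter.eventually_atTop.1 h3
  refine ⟨n₀, fun n hn => ?_⟩
  have h4 := hn₀ n hn
  simp only [Function.comp, Polynomial.eval_comp, Polynomial.eval_mul, Polynomial.eval_C,
    Polynomial.eval_X] at h4
  rw [div_lt_one (Real.exp_pos _)] at h4
  have e : 42 / Real.log 2 * (Real.log 2 * ((n : ℝ) / 42)) = n := by field_simp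
  rw [e] at h4
  rw [Real.rpow_def_of_pos (by norm_num)]
  exact h4.le

/-- For every real polynomial `P` and every `m` there is a thin 1-GVAS `G` with nonempty
right-hand sides and integers of absolute value at most `2`, of total size `n ≥ m`, such that `2` is
reachable from `1` and every derivation from `1` to `2` has more than `2 ^ (P n + 2 ^ (n / 42))`
vertices. -/
theorem main_bound (P : Polynomial ℝ) (m : ℕ) :
    ∃ (ν : Type) (G : GVAS ν) (n : ℕ),
      G.Thin ∧ (∀ r ∈ G.rules, r.2 ≠ [] ∧ ∀ z : ℤ, Sum.inr z ∈ r.2 → |z| ≤ 2) ∧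
      n = G.grammarSize + Nat.size 1 + Nat.size 2 ∧ m ≤ n ∧
      (∃ t, G.DerivationFromTo 1 2 t) ∧
      ∀ t, G.DerivationFromTo 1 2 t →
        (2 : ℝ) ^ (P.eval (n : ℝ) + (2 : ℝ) ^ ((n : ℝ) / 42)) < (t.numVertices : ℝ) := by
  obtain ⟨n₀, hn₀⟩ := poly_le P
  obtain ⟨k, hk⟩ : ∃ k, k = n₀ + m + 34 := ⟨_, rfl⟩
  have s1 : Nat.size 1 = 1 := by decide
  have s2 : Nat.size 2 = 2 := by decide
  have hle := le_fam_size k
  have hge := fam_size_le k
  refine ⟨NT, fam k, _, fam_thin k, ?_, rfl, by omega, fam_reach k, fun t ht => ?_⟩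
  · intro r hr
    rcases mem_famRules.1 hr with rfl | rfl | rfl | rfl | rfl | rfl | rfl | ⟨j, hj, rfl⟩ |
      ⟨j, hj, rfl⟩ | ⟨j, hj, rfl⟩ | ⟨j, hj, rfl⟩ | ⟨j, hj, rfl⟩ | ⟨j, hj, rfl⟩ <;>
    simp [rS₁, rS₂, rP₀, rN₀, rDk₁, rDk₂, rRk, rP, rN, rD, rR, rY₁, rY₂]
  · generalize hn : (fam k).grammarSize + Nat.size 1 + Nat.size 2 = n
    have h1 := hn₀ n (by omega)
    have h2 : (2 : ℝ) ^ ((n : ℝ) / 42) ≤ (2 : ℝ) ^ (k : ℝ) := by
      apply Real.rpow_le_rpow_of_exponent_le (by norm_num)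
      rw [div_le_iff₀ (by norm_num)]
      have : n ≤ k * 42 := by omega
      exact_mod_cast this
    have h3 : P.eval (n : ℝ) + (2 : ℝ) ^ ((n : ℝ) / 42) ≤ ((k * 2 ^ k : ℕ) : ℝ) := by
      rw [Real.rpow_natCast] at h2
      have hk2 : (2 : ℝ) ≤ k := by
        have : 2 ≤ k := by omega
        exact_mod_cast this
      have p : (0 : ℝ) < 2 ^ k := by positivity
      have h9 : (2 : ℝ) * 2 ^ k ≤ k * 2 ^ k := mul_le_mul_of_nonneg_right hk2 p.le
      push_cast
      linarith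
    have h4 : (2 : ℝ) ^ (P.eval (n : ℝ) + (2 : ℝ) ^ ((n : ℝ) / 42)) ≤
        (2 : ℝ) ^ (k * 2 ^ k : ℕ) := by
      rw [← Real.rpow_natCast]
      exact Real.rpow_le_rpow_of_exponent_le (by norm_num) h3
    have h5 := fam_lower ht
    have h6 : ∀ e : ℕ, 2 ≤ e → 2 ^ e + 1 < 3 ^ e := by
      intro e he
      induction e, he using Nat.le_induction with
      | base => norm_num
      | succ e _ ih => rw [pow_succ, pow_succ]; omega
    have h7 : 2 ≤ k * 2 ^ k := by
      have h1k : 1 ≤ 2 ^ k := Nat.one_le_two_pow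
      calc 2 ≤ k * 1 := by omega
        _ ≤ k * 2 ^ k := Nat.mul_le_mul_left k h1k
    have h8 : 2 ^ (k * 2 ^ k) < t.numVertices := by
      have := h6 _ h7
      omega
    exact h4.trans_lt (by exact_mod_cast h8)

end Pool.Agent.Lib.MP_020e3f_lc
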