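import Pool.Agent.Lib.MP_020e3f_lc.Family

/-!
Semantics of the family: existence of a derivation from `1` to `2`, and the lower bound.
-/

namespace Pool.Agent.Lib.MP_020e3f_lc

open Sum

/-- The fractions `1 + 3⁻ⁱ`. -/
def rr (i : ℕ) : ℚ := (3 ^ i + 1) / 3 ^ i

theorem rr_pos (i : ℕ) : 0 < rr i := by unfold rr; positivity

/-- Multipliers. -/
def rhoD (k i : ℕ) : ℚ := rr k ^ (2 ^ (k - i))
def rhoR (k i : ℕ) : ℚ := rr i / rhoD k i
def rhoY (i : ℕ) : ℚ := rr i / rr (i + 1) ^ 2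

theorem rhoD_pos (k i : ℕ) : 0 < rhoD k i := pow_pos (rr_pos _) _
theorem rhoR_pos (k i : ℕ) : 0 < rhoR k i := div_pos (rr_pos _) (rhoD_pos _ _)
theorem rhoY_pos (i : ℕ) : 0 < rhoY i := div_pos (rr_pos _) (pow_pos (rr_pos _) _)

theorem rhoD_step {k i : ℕ} (h : i < k) : rhoD k i = rhoD k (i + 1) * rhoD k (i + 1) := by
  unfold rhoD
  rw [← pow_add, show k - i = (k - (i + 1)) + 1 by omega, pow_succ 2]
  congr 1; ring

theorem rhoR_step {k i : ℕ} (h : i < k) :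
    rhoR k i = rhoR k (i + 1) * (rhoR k (i + 1) * rhoY i) := by
  unfold rhoR rhoY
  rw [rhoD_step h]
  have h1 := (rhoD_pos k (i + 1)).ne'
  have h2 := (rr_pos (i + 1)).ne'
  field_simp

theorem rhoD_self (k : ℕ) : rhoD k k = rr k := by simp [rhoD]

theorem rhoR_self (k : ℕ) : rhoR k k = 1 := by
  rw [rhoR, rhoD_self, div_self (rr_pos k).ne']

theorem rhoD_mul_rhoR (k : ℕ) : rhoD k 0 * rhoR k 0 = 2 := by
  have h1 := (rhoD_pos k 0).ne'
  rw [rhoR, mul_div_cancel₀ _ h1]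
  norm_num [rr]

theorem one_le_rr (i : ℕ) : 1 ≤ rr i := by
  unfold rr
  rw [le_div_iff₀ (by positivity)]
  linarith

theorem rr_mul (i : ℕ) : 3 ^ i * rr i = 3 ^ i + 1 := by
  unfold rr; field_simp

theorem rhoY_mul (i : ℕ) : (3 ^ (2 * i + 2) + 3 ^ (i + 1) + 3 ^ (i + 1) + 1 : ℚ) * rhoY i =
    3 ^ (2 * i + 2) + 3 ^ (i + 2) := by
  unfold rhoY rr
  have h : (3 ^ (2 * i + 2) + 3 ^ (i + 1) + 3 ^ (i + 1) + 1 : ℚ) = (3 ^ (i + 1) + 1) ^ 2 := by
    ring
  rw [h]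
  field_simp
  ring

theorem one_le_rhoY (i : ℕ) : 1 ≤ rhoY i := by
  have h := rhoY_mul i
  have h3 : (1 : ℚ) ≤ 3 ^ (i + 1) := one_le_pow₀ (by norm_num)
  have hp : (0 : ℚ) < 3 ^ (2 * i + 2) + 3 ^ (i + 1) + 3 ^ (i + 1) + 1 := by positivity
  have h4 : (3 : ℚ) ^ (i + 2) = 3 * 3 ^ (i + 1) := by ring
  by_contra hlt
  push Not at hlt
  nlinarith

/-! ### Soundness -/

/-- The invariants. -/
def Inv (k : ℕ) : NT → ℤ → ℤ → ℕ → Prop
  | NT.S, a, b, s => b ≤ 2 * a ∧ (b = 2 * a → ∃ M : ℕ, M ≤ s ∧ (3 ^ (k * 2 ^ k) : ℤ) ∣ a + M)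
  | NT.P j, a, b, _ => b = a + 3 ^ j
  | NT.N j, a, b, _ => b = a - 3 ^ j
  | NT.D i, a, b, _ => (b : ℚ) ≤ a * rhoD k i
  | NT.R i, a, b, _ => (b : ℚ) ≤ a * rhoR k i
  | NT.Y i, a, b, _ => (b : ℚ) ≤ a * rhoY i

theorem dvd_of_exact {k : ℕ} {a m : ℤ} (h : (m : ℚ) = a * rhoD k 0) :
    (3 ^ (k * 2 ^ k) : ℤ) ∣ a := by
  have h1 : (m : ℚ) * (3 ^ k) ^ (2 ^ k) = a * (3 ^ k + 1) ^ (2 ^ k) := by
    rw [h, rhoD, rr, Nat.sub_zero, div_pow]
    field_simp
  have h2 : m * (3 ^ k) ^ (2 ^ k) = a * (3 ^ k + 1) ^ (2 ^ k) := by exact_mod_cast h1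
  have h3 : IsCoprime ((3 ^ k : ℤ) ^ (2 ^ k)) ((3 ^ k + 1) ^ (2 ^ k)) := by
    apply IsCoprime.pow
    exact ⟨-1, 1, by ring⟩
  rw [pow_mul]
  exact h3.dvd_of_dvd_mul_right ⟨m, by rw [← h2]; ring⟩

theorem inv_rules (k : ℕ) : ∀ Y α, (Y, α) ∈ (fam k).rules → ∀ a b s,
    InvW (Inv k) α a b s → Inv k Y a b (s + 1) := by
  intro X α hr a b s hw
  have hr' : ((X, α) : Rule) ∈ famRules k := hr
  rcases mem_famRules.1 hr' with h | h | h | h | h | h | h | ⟨j, hj, h⟩ |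
      ⟨j, hj, h⟩ | ⟨j, hj, h⟩ | ⟨j, hj, h⟩ | ⟨j, hj, h⟩ | ⟨j, hj, h⟩ <;>
    simp only [rS₁, rS₂, rP₀, rN₀, rDk₁, rDk₂, rRk, rP, rN, rD, rR, rY₁, rY₂,
      Prod.mk.injEq] at h <;>
    obtain ⟨rfl, rfl⟩ := h <;>
    simp only [InvW, Inv] at hw ⊢
  · obtain ⟨h0, _, m, s₁, hs, ⟨h1, h2⟩, _, _, rfl⟩ := hw
    refine ⟨by omega, fun h => ?_⟩
    obtain ⟨M, hM, hd⟩ := h2 (by omega)
    refine ⟨M + 1, by omega, ?_⟩
    have : a + ((M + 1 : ℕ) : ℤ) = a + 1 + M := by push_cast; ring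
    rwa [this]
  · obtain ⟨h0, m, s₁, hs, h1, _, m', s₂, _, h2, _, rfl⟩ := hw
    have e := rhoD_mul_rhoR k
    have p := rhoR_pos k 0
    have h3 : (m : ℚ) * rhoR k 0 ≤ a * rhoD k 0 * rhoR k 0 :=
      mul_le_mul_of_nonneg_right h1 p.le
    have h4 : (a : ℚ) * rhoD k 0 * rhoR k 0 = 2 * a := by rw [mul_assoc, e]; ring
    refine ⟨?_, fun h => ⟨0, by omega, ?_⟩⟩
    · have : (m' : ℚ) ≤ 2 * a := by linarith
      exact_mod_cast this
    · have h5 : (m' : ℚ) = 2 * a := by exact_mod_cast h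
      have h6 : (m : ℚ) * rhoR k 0 = a * rhoD k 0 * rhoR k 0 := by linarith
      have h7 : (m : ℚ) = a * rhoD k 0 := mul_right_cancel₀ p.ne' h6
      simpa using dvd_of_exact h7
  · obtain ⟨_, _, rfl⟩ := hw; simp
  · obtain ⟨_, _, rfl⟩ := hw; simp [sub_eq_add_neg]
  · obtain ⟨_, m, _, _, rfl, _, m', _, _, h1, _, m'', _, _, rfl, _, _, rfl⟩ := hw
    rw [rhoD_self] at h1 ⊢
    have := rr_mul k
    push_cast at h1 ⊢
    linarith
  · obtain ⟨h0, _, rfl⟩ := hw
    rw [rhoD_self]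
    have h1 := one_le_rr k
    have h2 : (0 : ℚ) ≤ a := by exact_mod_cast h0
    push_cast
    nlinarith
  · obtain ⟨h0, _, rfl⟩ := hw
    rw [rhoR_self]; simp
  · obtain ⟨_, m, _, _, rfl, _, m', _, _, rfl, _, m'', _, _, rfl, _, rfl⟩ := hw
    ring
  · obtain ⟨_, m, _, _, rfl, _, m', _, _, rfl, _, m'', _, _, rfl, _, rfl⟩ := hw
    ring
  · obtain ⟨_, m, _, _, h1, _, m', _, _, h2, _, rfl⟩ := hw
    rw [rhoD_step hj, ← mul_assoc]
    exact h2.trans (mul_le_mul_of_nonneg_right h1 (rhoD_pos _ _).le)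
  · obtain ⟨_, m, _, _, h1, _, m', _, _, h2, _, m'', _, _, h3, _, rfl⟩ := hw
    rw [rhoR_step hj, ← mul_assoc, ← mul_assoc]
    exact h3.trans (mul_le_mul_of_nonneg_right
      (h2.trans (mul_le_mul_of_nonneg_right h1 (rhoR_pos _ _).le)) (rhoY_pos _).le)
  · obtain ⟨_, m1, _, _, rfl, _, m2, _, _, rfl, _, m3, _, _, rfl, _, _, m4, _, _, h1, _,
      m5, _, _, rfl, _, m6, _, _, rfl, _, rfl⟩ := hw
    have := rhoY_mul j
    push_cast at h1 ⊢
    linarith
  · obtain ⟨h0, _, rfl⟩ := hw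
    have h1 := one_le_rhoY j
    have h2 : (0 : ℚ) ≤ a := by exact_mod_cast h0
    push_cast
    nlinarith

theorem fam_lower {k : ℕ} {t : OTree (NT ⊕ ℤ)}
    (h : (fam k).DerivationFromTo 1 2 t) : 3 ^ (k * 2 ^ k) ≤ t.numVertices + 1 := by
  have h1 := invW_of_run (inv_rules k) (run_of_derivation h)
  obtain ⟨_, m, s₁, hs, ⟨_, h2⟩, _, rfl⟩ := h1
  obtain ⟨M, hM, hd⟩ := h2 (by norm_num)
  have h3 := Int.le_of_dvd (by positivity) hd
  have h4 : 3 ^ (k * 2 ^ k) ≤ 1 + M := by exact_mod_cast h3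
  omega

/-! ### Completeness -/

/-- The word `w` can lead from `a` to `b`. -/
def Can (k : ℕ) (w : List (NT ⊕ ℤ)) (a b : ℤ) : Prop := ∃ s, Run (fam k) w a b s

theorem Can.nil {k : ℕ} {a b : ℤ} (h : 0 ≤ a) (e : a = b) : Can k [] a b :=
  ⟨0, e ▸ Run.nil h⟩

theorem Can.int {k : ℕ} {z a b : ℤ} {w : List (NT ⊕ ℤ)} (h : 0 ≤ a) (hw : Can k w (a + z) b) :
    Can k (inr z :: w) a b := by
  obtain ⟨s, hs⟩ := hw
  exact ⟨_, Run.int h hs⟩

theorem Can.cons {k : ℕ} {x : NT ⊕ ℤ} {a m b : ℤ} {w : List (NT ⊕ ℤ)} (h : Can k [x] a m)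
    (hw : Can k w m b) : Can k (x :: w) a b := by
  obtain ⟨s, hs⟩ := h
  obtain ⟨s', hs'⟩ := hw
  exact ⟨_, hs.append hs'⟩

theorem Can.rule {k : ℕ} (r : Rule) (hr : r ∈ famRules k) (hne : r.2 ≠ []) {a b : ℤ}
    (h : Can k r.2 a b) : Can k [inl r.1] a b := by
  obtain ⟨s, hs⟩ := h
  exact ⟨_, Run.nt (G := fam k) hr hne hs (Run.nil hs.nonneg.2)⟩

theorem Can.cast {k : ℕ} {w : List (NT ⊕ ℤ)} {a b a' b' : ℤ} (h : Can k w a b) (ea : a = a')
    (eb : b = b') : Can k w a' b' := ea ▸ eb ▸ h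

theorem can_P {k : ℕ} (j : ℕ) (hj : j ≤ 2 * k) (a : ℤ) (ha : 0 ≤ a) :
    Can k [inl (NT.P j)] a (a + 3 ^ j) := by
  induction j generalizing a with
  | zero =>
    exact Can.rule rP₀ (by simp [mem_famRules]) (by simp [rP₀])
      (Can.int ha (Can.nil (by omega) (by simp)))
  | succ j ih =>
    have p : (0 : ℤ) < 3 ^ j := by positivity
    refine Can.rule (rP j) (mem_famRules.2 ?_) (by simp [rP]) ?_
    · right; right; right; right; right; right; right; left; exact ⟨j, by omega, rfl⟩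
    · refine Can.cons (ih (by omega) a ha) (Can.cons (ih (by omega) _ (by omega)) ?_)
      exact (ih (by omega) _ (by omega)).cast rfl (by ring)

theorem can_N {k : ℕ} (j : ℕ) (hj : j ≤ 2 * k) (b : ℤ) (hb : 0 ≤ b) :
    Can k [inl (NT.N j)] (b + 3 ^ j) b := by
  induction j generalizing b with
  | zero =>
    exact Can.rule rN₀ (by simp [mem_famRules]) (by simp [rN₀])
      (Can.int (by simp; omega) (Can.nil (by simp; omega) (by simp)))
  | succ j ih =>
    have p : (0 : ℤ) < 3 ^ j := by positivity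
    refine Can.rule (rN j) (mem_famRules.2 ?_) (by simp [rN]) ?_
    · right; right; right; right; right; right; right; right; left; exact ⟨j, by omega, rfl⟩
    · refine Can.cons ((ih (by omega) (b + 3 ^ j + 3 ^ j) (by omega)).cast (by ring) rfl)
        (Can.cons (ih (by omega) _ (by omega)) ?_)
      exact ih (by omega) _ hb

/-- The word `w` multiplies all multiples of some positive integer exactly by `ρ`. -/
def MulW (k : ℕ) (w : List (NT ⊕ ℤ)) (ρ : ℚ) : Prop :=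
  ∃ Q P : ℕ, 0 < Q ∧ (P : ℚ) = Q * ρ ∧ ∀ m : ℕ, Can k w (Q * m) (P * m)

theorem MulW.cons {k : ℕ} {x : NT ⊕ ℤ} {w : List (NT ⊕ ℤ)} {ρ₁ ρ₂ : ℚ} (h₁ : MulW k [x] ρ₁)
    (h₂ : MulW k w ρ₂) : MulW k (x :: w) (ρ₁ * ρ₂) := by
  obtain ⟨Q₁, P₁, p₁, e₁, c₁⟩ := h₁
  obtain ⟨Q₂, P₂, p₂, e₂, c₂⟩ := h₂
  refine ⟨Q₁ * Q₂, P₁ * P₂, by positivity, by push_cast; rw [e₁, e₂]; ring, fun m => ?_⟩
  refine Can.cons ((c₁ (Q₂ * m)).cast (by push_cast; ring) rfl) ?_
  exact (c₂ (P₁ * m)).cast (by push_cast; ring) (by push_cast; ring)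

theorem MulW.rule {k : ℕ} (r : Rule) (hr : r ∈ famRules k) (hne : r.2 ≠ []) {ρ : ℚ}
    (h : MulW k r.2 ρ) : MulW k [inl r.1] ρ := by
  obtain ⟨Q, P, p, e, c⟩ := h
  exact ⟨Q, P, p, e, fun m => Can.rule r hr hne (c m)⟩

theorem mul_Y {k i : ℕ} (hi : i < k) : MulW k [inl (NT.Y i)] (rhoY i) := by
  refine ⟨3 ^ (2 * i + 2) + 3 ^ (i + 1) + 3 ^ (i + 1) + 1, 3 ^ (2 * i + 2) + 3 ^ (i + 2),
    by positivity, by push_cast; rw [rhoY_mul], fun m => ?_⟩
  induction m with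
  | zero =>
    refine Can.rule (rY₂ i) (mem_famRules.2 ?_) (by simp [rY₂])
      (Can.int (by simp) (Can.nil (by simp) (by simp)))
    right; right; right; right; right; right; right; right; right; right; right; right
    exact ⟨i, hi, rfl⟩
  | succ m ih =>
    refine Can.rule (rY₁ i) (mem_famRules.2 ?_) (by simp [rY₁]) ?_
    · right; right; right; right; right; right; right; right; right; right; right; left
      exact ⟨i, hi, rfl⟩
    · set x : ℤ := ((3 ^ (2 * i + 2) + 3 ^ (i + 1) + 3 ^ (i + 1) + 1 : ℕ) : ℤ) * m with hx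
      set y : ℤ := ((3 ^ (2 * i + 2) + 3 ^ (i + 2) : ℕ) : ℤ) * m with hy
      have x0 : 0 ≤ x := by positivity
      have y0 : 0 ≤ y := by positivity
      refine Can.cons ((can_N (2 * i + 2) (by omega) (x + 1 + 3 ^ (i + 1) + 3 ^ (i + 1))
        (by positivity)).cast (by rw [hx]; push_cast; ring) rfl) ?_
      refine Can.cons (can_N (i + 1) (by omega) _ (by positivity)) ?_
      refine Can.cons (can_N (i + 1) (by omega) _ (by positivity)) ?_
      refine Can.int (by positivity) ?_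
      refine Can.cons (ih.cast (by ring) rfl) ?_
      refine Can.cons (can_P (2 * i + 2) (by omega) _ y0) ?_
      exact (can_P (i + 2) (by omega) _ (by positivity)).cast rfl (by rw [hy]; push_cast; ring)

theorem mul_Dk (k : ℕ) : MulW k [inl (NT.D k)] (rhoD k k) := by
  refine ⟨3 ^ k, 3 ^ k + 1, by positivity, by push_cast; rw [rhoD_self, rr_mul], fun m => ?_⟩
  induction m with
  | zero =>
    exact Can.rule (rDk₂ k) (by simp [mem_famRules]) (by simp [rDk₂])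
      (Can.int (by simp) (Can.nil (by simp) (by simp)))
  | succ m ih =>
    refine Can.rule (rDk₁ k) (by simp [mem_famRules]) (by simp [rDk₁]) ?_
    set x : ℤ := ((3 ^ k : ℕ) : ℤ) * m with hx
    set y : ℤ := ((3 ^ k + 1 : ℕ) : ℤ) * m with hy
    have x0 : 0 ≤ x := by positivity
    have y0 : 0 ≤ y := by positivity
    refine Can.cons ((can_N k (by omega) x x0).cast (by rw [hx]; push_cast; ring) rfl) ?_
    refine Can.cons ih ?_
    refine Can.cons (can_P k (by omega) _ y0) ?_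
    exact Can.int (by positivity) (Can.nil (by positivity) (by rw [hy]; push_cast; ring))

theorem mul_D (k d : ℕ) (hd : d ≤ k) : MulW k [inl (NT.D (k - d))] (rhoD k (k - d)) := by
  induction d with
  | zero => exact mul_Dk k
  | succ d ih =>
    have h := ih (by omega)
    have e : k - d = k - (d + 1) + 1 := by omega
    rw [e] at h
    rw [rhoD_step (by omega)]
    refine MulW.rule (rD (k - (d + 1))) (mem_famRules.2 ?_) (by simp [rD]) (h.cons h)
    right; right; right; right; right; right; right; right; right; left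
    exact ⟨_, by omega, rfl⟩

theorem mul_R (k d : ℕ) (hd : d ≤ k) : MulW k [inl (NT.R (k - d))] (rhoR k (k - d)) := by
  induction d with
  | zero =>
    refine ⟨1, 1, one_pos, by simp [rhoR_self], fun m => ?_⟩
    exact Can.rule (rRk k) (by simp [mem_famRules]) (by simp [rRk])
      (Can.int (by positivity) (Can.nil (by simp) (by simp)))
  | succ d ih =>
    have h := ih (by omega)
    have e : k - d = k - (d + 1) + 1 := by omega
    rw [e] at h
    rw [rhoR_step (by omega)]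
    refine MulW.rule (rR (k - (d + 1))) (mem_famRules.2 ?_) (by simp [rR])
      (h.cons (h.cons (mul_Y (by omega))))
    right; right; right; right; right; right; right; right; right; right; left
    exact ⟨_, by omega, rfl⟩

theorem fam_reach (k : ℕ) : ∃ t, (fam k).DerivationFromTo 1 2 t := by
  have h1 := mul_D k k le_rfl
  have h2 := mul_R k k le_rfl
  rw [Nat.sub_self] at h1 h2
  have h3 := MulW.rule rS₂ (by simp [mem_famRules]) (by simp [rS₂]) (h1.cons h2)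
  rw [rhoD_mul_rhoR] at h3
  obtain ⟨Q, P, p, e, c⟩ := h3
  have eP : (P : ℤ) = 2 * Q := by
    have : (P : ℚ) = 2 * Q := by rw [e]; ring
    exact_mod_cast this
  have down : ∀ d a : ℕ, Can k [inl NT.S] (a + d) (2 * (a + d)) → Can k [inl NT.S] a (2 * a) := by
    intro d
    induction d with
    | zero => intro a h; simpa using h
    | succ d ih =>
      intro a h
      have h' := ih (a + 1) (h.cast (by push_cast; ring) (by push_cast; ring))
      refine Can.rule rS₁ (by simp [mem_famRules]) (by simp [rS₁]) ?_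
      refine Can.int (by positivity) (Can.cons (h'.cast (by push_cast; ring) rfl) ?_)
      exact Can.int (by positivity) (Can.nil (by push_cast; omega) (by push_cast; ring))
  obtain ⟨s, hs⟩ := down (Q - 1) 1 ((c 1).cast (by push_cast [Nat.cast_sub p]; ring)
    (by rw [eP]; push_cast [Nat.cast_sub p]; ring))
  exact derivation_of_run (G := fam k) (s := s) (by simpa [fam] using hs)

end Pool.Agent.Lib.MP_020e3f_lc
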